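import Mathlib
import Pool.Agent.H44D.Stmts
import Pool.Agent.H44D.Stmts2
import Pool.Agent.H44D.Final
import Pool.Agent.H44D.B
import Pool.Agent.H44D.A
import Pool.Agent.H44D.C3
import Pool.Agent.H44D.Final2
import Pool.Agent.H511R3.H44.S
import Pool.Agent.H722R5.H44D_C1
import Pool.Agent.H886R3.TaskH44DC2

set_option autoImplicit false

open scoped Topology

/-- Let `G` be a Polish group. Suppose that there is a neighbourhood `O` of the identity such that
for every neighbourhood `W` of the identity and every `N` there are a finite set `F` contained in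
`W` and an open subgroup `V` such that, for all `y` in `O`, the group generated by `F` is not
covered by `N` left cosets of `y⁻¹ V y`. Then `G` is the union of a meager set and a Haar null
set. -/
theorem Pool.Agent.Results.MP_a4a5b6_lc.NoCompression.result :
    ∀ (G : Type) [Group G] [TopologicalSpace G] [IsTopologicalGroup G] [PolishSpace G]
      [MeasurableSpace G] [BorelSpace G],
      (∃ O ∈ 𝓝 (1 : G), ∀ W ∈ 𝓝 (1 : G), ∀ N : ℕ, ∃ F : Finset G, (F : Set G) ⊆ W ∧
        ∃ V : Subgroup G, IsOpen (V : Set G) ∧ ∀ y ∈ O, ∀ T : Finset G, T.card ≤ N →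
          ∃ γ ∈ Subgroup.closure (F : Set G), ∀ t ∈ T, y * (t⁻¹ * γ) * y⁻¹ ∉ V) →
        ∃ A B : Set G, A ∪ B = Set.univ ∧ IsMeagre A ∧
          ∃ C : Set G, MeasurableSet C ∧ B ⊆ C ∧
            ∃ μ : MeasureTheory.Measure G, MeasureTheory.IsProbabilityMeasure μ ∧
              ∀ g h : G, μ ((fun x => g * x * h) '' C) = 0 := by
  intro G _ _ _ _ _ _ hinc
  by_cases hna : ∀ U ∈ 𝓝 (1 : G), ∃ H : Subgroup G, IsOpen (H : Set G) ∧ (H : Set G) ⊆ U
  · exact H44D.assembly2 H44D.taskS hna hinc
  · push Not at hna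
    obtain ⟨U, hU, h⟩ := hna
    exact H44D.assembly H44D.taskA H44D.taskB H44D.taskC1 Pool.Agent.H886R3.DC2.taskC2
      H44D.taskC3 G ⟨U, hU, h⟩
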