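import Mathlib
import Pool.Agent.H44D.Stmts
import Pool.Agent.H44D.Final
import Pool.Agent.H44D.B
import Pool.Agent.H44D.A
import Pool.Agent.H722R5.H44D_C1
import Pool.Agent.H886R3.TaskH44DC2
import Pool.Agent.H44D.C3

set_option autoImplicit false

open scoped Topology

/-- Every Polish group which is not non-archimedean (some neighbourhood of the identity contains no
open subgroup) is the union of a meager set and a Haar null set. -/
theorem Pool.Agent.Results.MP_a4a5b6_lc.NotNonArchimedean.result :
    ∀ (G : Type) [Group G] [TopologicalSpace G] [IsTopologicalGroup G] [PolishSpace G]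
      [MeasurableSpace G] [BorelSpace G],
      (∃ U ∈ 𝓝 (1 : G), ∀ H : Subgroup G, IsOpen (H : Set G) → ¬ (H : Set G) ⊆ U) →
        ∃ A B : Set G, A ∪ B = Set.univ ∧ IsMeagre A ∧
          ∃ C : Set G, MeasurableSet C ∧ B ⊆ C ∧
            ∃ μ : MeasureTheory.Measure G, MeasureTheory.IsProbabilityMeasure μ ∧
              ∀ g h : G, μ ((fun x => g * x * h) '' C) = 0 :=
  H44D.assembly H44D.taskA H44D.taskB H44D.taskC1 Pool.Agent.H886R3.DC2.taskC2 H44D.taskC3
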